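import Pool.Agent.P.MP_7f6fde_gt.Main

namespace Pool.Agent.Old.MP_7f6fde_gt.Counterexample

open Pool.Agent.P.MP_7f6fde_gt

/-- For every `n > 0` there is a non-trivial knot whose HOMFLYPT polynomial has `a`-spread `8 n`
and whose Kauffman polynomial has `a`-spread `7 n`. -/
theorem result (n : ℕ) (hn : 0 < n) :
    ∃ D : List (Sl Bool), Closed not D ∧ comps [] D = 1 ∧
      ∀ (P : List (Sl Bool) → LL) (L : List (Sl Unit) → LL), IsHomfly P → IsKauffman L →
        (∀ o, ¬ Isotopic D [Sl.cup 0 o, Sl.cap 0]) ∧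
        aSpread (P D) = 8 * n ∧ aSpread (kauffmanF L D) = 7 * n ∧
        aSpread (kauffmanF L D) < aSpread (P D) := by
  refine ⟨knotN n, closed_knotN n, comps_knotN n, fun P L hP hL =>
    ⟨nontrivial_knotN hP n hn, spread_homfly hP n, spread_kauffman hL n, ?_⟩⟩
  rw [spread_homfly hP n, spread_kauffman hL n]
  omega

end Pool.Agent.Old.MP_7f6fde_gt.Counterexample
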