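import Pool.Agent.P.MP_7f6fde_gt.B.Final

namespace Pool.Agent.Old.MP_7f6fde_gt.SmoothKnot

open LaurentPolynomial Pool.Agent.P.MP_7f6fde_gt.S

/-- The HOMFLYPT polynomial `P` of smooth oriented links and Kauffman's invariant `L` of diagrams
exist, and there is a non-trivial smooth knot `K` whose HOMFLYPT polynomial has `a`-spread `8`
while `a ^ (-w) * L K` has `a`-spread `7` for every `w`, in particular for the writhe. -/
theorem result : ∃ P L, IsHomfly P ∧ IsKauffman L ∧
    ∃ K : Fin 1 → ℝ → E3, IsDiagram K ∧ ¬ Trivial K ∧ aSpread (P (rays K)) = 8 ∧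
      ∀ w : ℤ, aSpread (T (-w) * L (trace K)) = 7 :=
  Pool.Agent.P.MP_ac4909_gt.B.K7.main

end Pool.Agent.Old.MP_7f6fde_gt.SmoothKnot
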